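import Mathlib
import Pool.Agent.Helper44.QB.Step

/-!
PROJECT QB (MP_6cd5f1_al), leaf (T): transfer along an inclusion `ι : O ↪ O'` of the odd
generators. `f : (O → R) → (O' → R)` maps the basis vector `i` to the basis vector `ι i`,
`emb b f : AA R O b → AA R O' b`, `mp ι m` the image of the monomial `m`.
-/

set_option autoImplicit false

open scoped TensorProduct
open Pool.Agent.Helper44.QA Pool.Agent.Helper44.QB

namespace Pool.Agent.Helper49.QBT

universe u

variable {R : Type u} [CommRing R] {O O' : Type} [Fintype O] [LinearOrder O]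
  [Fintype O'] [LinearOrder O'] {b : ℕ} (ι : O ↪ O')

/-- Extension by zero. -/
noncomputable def exz (R : Type u) [CommRing R] (ι : O ↪ O') : (O → R) →ₗ[R] (O' → R) :=
  Function.ExtendByZero.linearMap R ι

omit [Fintype O] [Fintype O'] in
theorem exz_single (i : O) : exz R ι (Pi.single i 1) = Pi.single (ι i) 1 := by
  funext i'
  change Function.extend ι (Pi.single i (1 : R) : O → R) 0 i' = _
  by_cases h : ∃ a, ι a = i'
  · obtain ⟨a, rfl⟩ := h
    rw [ι.injective.extend_apply]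
    by_cases h1 : a = i
    · subst h1
      rw [Pi.single_eq_same, Pi.single_eq_same]
    · rw [Pi.single_eq_of_ne h1, Pi.single_eq_of_ne (fun h2 => h1 (ι.injective h2))]
  · rw [Function.extend_apply' _ _ _ h, Pi.single_eq_of_ne (fun h2 => h ⟨i, h2.symm⟩)]
    rfl

/-- The image of a generator. -/
abbrev sg (b : ℕ) (ι : O ↪ O') : O ⊕ Fin b → O' ⊕ Fin b := Sum.map ι id

/-- The image of a monomial. -/
def mp (ι : O ↪ O') (m : Mo O b) : Mo O' b := (m.1.map ι, m.2)

omit [Fintype O] [LinearOrder O] [Fintype O'] [LinearOrder O'] in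
theorem mp_inj {m m' : Mo O b} (h : mp ι m = mp ι m') : m = m' := by
  obtain ⟨h1, h2⟩ := Prod.ext_iff.1 h
  exact Prod.ext (Finset.map_injective ι h1) h2

omit [Fintype O] [LinearOrder O] [Fintype O'] [LinearOrder O'] in
theorem sg_injective : Function.Injective (sg b ι) :=
  Sum.map_injective.2 ⟨ι.injective, Function.injective_id⟩

variable {ι} {f : (O → R) →ₗ[R] (O' → R)} (hf : ∀ i, f (Pi.single i 1) = Pi.single (ι i) 1)

include hf

omit [Fintype O'] in
theorem proj_comp (i : O) :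
    (LinearMap.proj (ι i) : (O' → R) →ₗ[R] R) ∘ₗ f = LinearMap.proj i := by
  refine (Pi.basisFun R O).ext fun a => ?_
  rw [Pi.basisFun_apply, LinearMap.comp_apply, hf]
  change (Pi.single (ι a) (1 : R) : O' → R) (ι i) = (Pi.single a (1 : R) : O → R) i
  by_cases h : a = i
  · subst h
    rw [Pi.single_eq_same, Pi.single_eq_same]
  · rw [Pi.single_eq_of_ne' h, Pi.single_eq_of_ne' (fun h2 => h (ι.injective h2))]

omit [Fintype O'] in
theorem proj_comp_zero {i' : O'} (h : ∀ i, ι i ≠ i') :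
    (LinearMap.proj i' : (O' → R) →ₗ[R] R) ∘ₗ f = 0 := by
  refine (Pi.basisFun R O).ext fun a => ?_
  rw [Pi.basisFun_apply, LinearMap.comp_apply, hf]
  change (Pi.single (ι a) (1 : R) : O' → R) i' = 0
  rw [Pi.single_eq_of_ne' (h a)]

omit [Fintype O] [Fintype O'] in
theorem emb_gg (g : O ⊕ Fin b) : emb b f (gg g) = gg (sg b ι g) := by
  cases g with
  | inl i =>
    change emb b f (xx _) = xx _
    rw [emb_xx, hf]
  | inr j => exact emb_XX f j

/-- (T1) the differential. -/
theorem emb_d {T : DD R O b} {T' : DD R O' b} (hT : ∀ g, T' (sg b ι g) = emb b f (T g))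
    (x : AA R O b) : T'.d (emb b f x) = emb b f (T.d x) := by
  classical
  rw [d_apply, d_apply, map_add, map_sum, map_sum]
  congr 1
  · rw [← Finset.sum_subset (Finset.subset_univ (Finset.univ.map ι)), Finset.sum_map]
    · refine Finset.sum_congr rfl fun i _ => ?_
      rw [con_emb, proj_comp hf, map_mul]
      exact congrArg (· * _) (hT (Sum.inl i))
    · intro i' _ hi'
      rw [con_emb, proj_comp_zero hf, con_zero_left, map_zero, mul_zero]
      intro i hi
      exact hi' (Finset.mem_map.2 ⟨i, Finset.mem_univ _, hi⟩)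
  · refine Finset.sum_congr rfl fun j _ => ?_
    rw [par_emb, map_mul]
    exact congrArg (· * _) (hT (Sum.inr j))

theorem emb_mon (m : Mo O b) :
    ∃ u : ℤˣ, emb b f (mon (R := R) m) = u • mon (mp ι m) := by
  obtain ⟨S, α⟩ := m
  induction S using Finset.induction_on with
  | empty =>
    refine ⟨1, ?_⟩
    rw [one_smul]
    unfold mon mp
    rw [emb_tm, bas_empty, map_one]
    change _ = tm (bas R O' (Finset.map ι ∅)) _
    rw [Finset.map_empty, bas_empty]
  | insert a S ha ih =>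
    obtain ⟨u, hu⟩ := ih
    obtain ⟨v, hv⟩ := mon_insert (R := R) a S α ha
    have h1 : ι a ∉ S.map ι := by
      intro h
      obtain ⟨c, hc, hc'⟩ := Finset.mem_map.1 h
      rw [ι.injective hc'] at hc
      exact ha hc
    obtain ⟨v', hv'⟩ := mon_insert (R := R) (ι a) (S.map ι) α h1
    have h2 : mp ι ((insert a S, α) : Mo O b) = (insert (ι a) (S.map ι), α) := by
      unfold mp
      rw [Finset.map_insert]
    have h3 : emb b f (gg (Sum.inl a) * mon (R := R) (S, α)) =
        u • (gg (Sum.inl (ι a)) * mon (S.map ι, α)) := by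
      rw [map_mul, emb_gg hf, hu, mul_units]
      rfl
    have h4 : gg (R := R) (Sum.inl (ι a)) * mon (S.map ι, α) =
        v' • mon (insert (ι a) (S.map ι), α) := by
      rw [hv', smul_smul, Int.units_mul_self, one_smul]
    refine ⟨v * (u * v'), ?_⟩
    rw [hv, h2, mul_smul, mul_smul, ← h4, ← h3]
    rcases Int.units_eq_one_or v with rfl | rfl
    · rw [one_smul, one_smul]
    · rw [Units.neg_smul, one_smul, Units.neg_smul, one_smul, map_neg]

/-- (T2) the coordinates. -/
theorem co_emb (m : Mo O b) :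
    ∃ u : ℤˣ, ∀ x : AA R O b, co (mp ι m) (emb b f x) = u • co m x := by
  obtain ⟨u, hu⟩ := emb_mon (b := b) hf m
  refine ⟨u, fun x => ?_⟩
  refine lin_ext (f := co (mp ι m) ∘ₗ (emb b f).toLinearMap) (g := (u : ℤ) • co m) ?_ x
  intro m'
  rw [LinearMap.comp_apply, LinearMap.smul_apply, AlgHom.toLinearMap_apply]
  change co (mp ι m) (emb b f (mon m')) = u • co m (mon (R := R) m')
  by_cases h : m' = m
  · subst h
    rw [hu, co_units, co_mon, if_pos rfl, co_mon, if_pos rfl]
  · obtain ⟨v, hv⟩ := emb_mon (b := b) hf m'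
    rw [hv, co_units, co_mon, if_neg (fun h1 => h (mp_inj ι h1)), co_mon, if_neg h, smul_zero,
      smul_zero]

theorem co_emb_zero {m' : Mo O' b} (h : ∀ m, mp ι m ≠ m') (x : AA R O b) :
    co m' (emb b f x) = 0 := by
  refine lin_ext (f := co m' ∘ₗ (emb b f).toLinearMap) (g := 0) ?_ x
  intro m
  rw [LinearMap.comp_apply, LinearMap.zero_apply, AlgHom.toLinearMap_apply]
  obtain ⟨v, hv⟩ := emb_mon (b := b) hf m
  rw [hv, co_units, co_mon, if_neg (h m), smul_zero]

theorem emb_inj {x y : AA R O b} (h : emb b f x = emb b f y) : x = y := by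
  apply co_ext
  intro m
  obtain ⟨u, hu⟩ := co_emb (b := b) hf m
  have := congrArg (co (mp ι m)) h
  rw [hu, hu] at this
  exact smul_left_cancel u this

omit hf in
omit [Fintype O] [LinearOrder O] [Fintype O'] [LinearOrder O'] in
theorem exists_mp {m' : Mo O' b} (h : SuppIn (Set.range (sg b ι)) m') : ∃ m, mp ι m = m' := by
  classical
  refine ⟨(m'.1.preimage ι ι.injective.injOn, m'.2), ?_⟩
  refine Prod.ext ?_ rfl
  change (m'.1.preimage ι ι.injective.injOn).map ι = m'.1
  ext i'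
  rw [Finset.mem_map]
  constructor
  · rintro ⟨a, ha, rfl⟩
    exact Finset.mem_preimage.1 ha
  · intro hi
    obtain ⟨g, hg⟩ := h.1 i' hi
    cases g with
    | inl a =>
      have h1 : ι a = i' := by
        have : Sum.inl (ι a) = (Sum.inl i' : O' ⊕ Fin b) := hg
        exact Sum.inl_injective this
      exact ⟨a, Finset.mem_preimage.2 (by rwa [h1]), h1⟩
    | inr j =>
      have : (Sum.inr j : O' ⊕ Fin b) = Sum.inl i' := hg
      cases this

/-- (T3) the image. -/
theorem exists_emb {x' : AA R O' b} (h : ∀ m', co m' x' ≠ 0 → SuppIn (Set.range (sg b ι)) m') :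
    ∃ x : AA R O b, emb b f x = x' := by
  obtain ⟨s, hs, -⟩ := exists_sum x'
  have h1 : x' ∈ LinearMap.range (emb b f).toLinearMap := by
    rw [hs]
    refine Submodule.sum_mem _ fun m' _ => ?_
    by_cases h0 : co m' x' = 0
    · rw [h0, zero_smul]
      exact Submodule.zero_mem _
    · obtain ⟨m, rfl⟩ := exists_mp (h m' h0)
      refine Submodule.smul_mem _ _ ?_
      obtain ⟨u, hu⟩ := emb_mon (b := b) hf m
      have h2 : mon (R := R) (mp ι m) = u • emb b f (mon m) := by
        rw [hu, smul_smul, Int.units_mul_self, one_smul]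
      rw [h2]
      rcases Int.units_eq_one_or u with rfl | rfl
      · rw [one_smul]
        exact LinearMap.mem_range_self (emb b f).toLinearMap (mon m)
      · rw [Units.neg_smul, one_smul]
        exact Submodule.neg_mem _ (LinearMap.mem_range_self (emb b f).toLinearMap (mon m))
  obtain ⟨x, hx⟩ := h1
  exact ⟨x, hx⟩

omit hf

section Fam

variable {δ : O ⊕ Fin b → ℤ} {δ' : O' ⊕ Fin b → ℤ} (hδ : ∀ g, δ' (sg b ι g) = δ g)
  {S : Set (O ⊕ Fin b)} {n : ℤ}

include hδ in
omit [Fintype O] [LinearOrder O] [Fintype O'] [LinearOrder O'] in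
theorem lin_mp (m : Mo O b) : lin δ' (mp ι m) = lin δ m := by
  unfold lin mp
  rw [Finset.sum_map]
  congr 1
  · exact Finset.sum_congr rfl fun i _ => hδ (Sum.inl i)
  · refine Finset.sum_congr rfl fun j _ => ?_
    exact congrArg (_ * ·) (hδ (Sum.inr j))

omit [Fintype O] [LinearOrder O] [Fintype O'] [LinearOrder O'] in
theorem suppIn_mp {m : Mo O b} : SuppIn (sg b ι '' S) (mp ι m) ↔ SuppIn S m := by
  constructor
  · rintro ⟨h1, h2⟩
    refine ⟨fun i hi => ?_, fun j hj => ?_⟩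
    · have h3 : (Sum.inl (ι i) : O' ⊕ Fin b) ∈ sg b ι '' S :=
        h1 (ι i) (Finset.mem_map.2 ⟨i, hi, rfl⟩)
      exact ((sg_injective ι).mem_set_image (a := (Sum.inl i : O ⊕ Fin b))).1 h3
    · exact ((sg_injective ι).mem_set_image (a := (Sum.inr j : O ⊕ Fin b))).1 (h2 j hj)
  · rintro ⟨h1, h2⟩
    refine ⟨fun i' hi' => ?_, fun j hj => ⟨Sum.inr j, h2 j hj, rfl⟩⟩
    obtain ⟨i, hi, rfl⟩ := Finset.mem_map.1 hi'
    exact ⟨Sum.inl i, h1 i hi, rfl⟩

variable {k : Type u} [Field k] [Algebra k R]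
  {φ : Mo O b → Submodule k R} {φ' : Mo O' b → Submodule k R} (hφ : ∀ m, φ' (mp ι m) = φ m)

include hδ hφ in
omit [Fintype O] [LinearOrder O] [Fintype O'] [LinearOrder O'] in
theorem Cd_mp (m : Mo O b) : Cd δ' (sg b ι '' S) n φ' (mp ι m) = Cd δ S n φ m := by
  classical
  unfold Cd
  by_cases h : SuppIn S m ∧ lin δ m = n
  · rw [if_pos h, if_pos ⟨suppIn_mp.2 h.1, (lin_mp hδ m).trans h.2⟩, hφ]
  · rw [if_neg h, if_neg]
    rintro ⟨h1, h2⟩
    exact h ⟨suppIn_mp.1 h1, (lin_mp hδ m).symm.trans h2⟩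

include hf hδ hφ in
/-- (T4) the families. -/
theorem emb_mem {x : AA R O b} :
    emb b f x ∈ Pc (Cd δ' (sg b ι '' S) n φ') ↔ x ∈ Pc (Cd δ S n φ) := by
  constructor
  · intro h m
    obtain ⟨u, hu⟩ := co_emb (b := b) hf m
    have h1 := h (mp ι m)
    rw [hu, Cd_mp hδ hφ] at h1
    have h2 := units_mem u h1
    rwa [smul_smul, Int.units_mul_self, one_smul] at h2
  · intro h m'
    by_cases h0 : ∃ m, mp ι m = m'
    · obtain ⟨m, rfl⟩ := h0
      obtain ⟨u, hu⟩ := co_emb (b := b) hf m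
      rw [hu, Cd_mp hδ hφ]
      exact units_mem u (h m)
    · push Not at h0
      rw [co_emb_zero hf h0]
      exact Submodule.zero_mem _

include hf in
/-- Elements of the families of the image. -/
theorem exists_emb_of_mem {x' : AA R O' b} (h : x' ∈ Pc (Cd δ' (sg b ι '' S) n φ')) :
    ∃ x : AA R O b, emb b f x = x' := by
  refine exists_emb hf fun m' h0 => ?_
  exact (((mem_Cd.1 (h m')).1 h0).1).mono (Set.image_subset_range _ _)

variable {T : DD R O b} {T' : DD R O' b}

include hf hδ hφ in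
/-- The homology of the families. -/
theorem ex_iff (hT : ∀ g, T' (sg b ι g) = emb b f (T g)) :
    Pool.Agent.Helper67.QB.Ex T'.d.toAddMonoidHom
      (fun n => (Pc (Cd δ' (sg b ι '' S) n φ')).toAddSubgroup) n ↔
    Pool.Agent.Helper67.QB.Ex T.d.toAddMonoidHom
      (fun n => (Pc (Cd δ S n φ)).toAddSubgroup) n := by
  constructor
  · intro h z hz hdz
    obtain ⟨w', hw', hw2⟩ := h (emb b f z) ((emb_mem hf hδ hφ).2 hz) (by
      change T'.d (emb b f z) = 0
      rw [emb_d hf hT]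
      have : T.d z = 0 := hdz
      rw [this, map_zero])
    obtain ⟨w, rfl⟩ := exists_emb_of_mem hf hw'
    refine ⟨w, (emb_mem hf hδ hφ).1 hw', ?_⟩
    have h2 : T'.d (emb b f w) = emb b f z := hw2
    rw [emb_d hf hT] at h2
    exact emb_inj hf h2
  · intro h z' hz' hdz'
    obtain ⟨z, rfl⟩ := exists_emb_of_mem hf hz'
    have h1 : T'.d (emb b f z) = 0 := hdz'
    rw [emb_d hf hT] at h1
    obtain ⟨w, hw, hw2⟩ := h z ((emb_mem hf hδ hφ).1 hz') (by
      refine emb_inj hf (h1.trans ?_)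
      rw [map_zero])
    refine ⟨emb b f w, (emb_mem hf hδ hφ).2 hw, ?_⟩
    have h2 : T.d w = z := hw2
    change T'.d (emb b f w) = _
    rw [emb_d hf hT, h2]

include hf hδ in
/-- Closed sets of generators. -/
theorem cl_iff (hT : ∀ g, T' (sg b ι g) = emb b f (T g)) :
    Cl k δ' T' (sg b ι '' S) ↔ Cl k δ T S := by
  have key : ∀ g, T' (sg b ι g) ∈ Ft k δ' (sg b ι '' S) (δ' (sg b ι g) - 1) ↔
      T g ∈ Ft k δ S (δ g - 1) := by
    intro g
    rw [hT, hδ]
    exact emb_mem hf hδ (fun _ => rfl)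
  constructor
  · intro h g hg
    exact (key g).1 (h _ ⟨g, hg, rfl⟩)
  · rintro h _ ⟨g, hg, rfl⟩
    exact (key g).2 (h g hg)

variable {𝒜 : ℕ → Submodule k R} {w : O ⊕ Fin b → ℤ} {w' : O' ⊕ Fin b → ℤ}
  (hw : ∀ g, w' (sg b ι g) = w g)

include hf hδ in
theorem emb_mem_Ft {x : AA R O b} :
    emb b f x ∈ Ft k δ' (sg b ι '' S) n ↔ x ∈ Ft k δ S n :=
  emb_mem hf hδ (fun _ => rfl)

include hf hδ hw in
theorem emb_mem_Fw {p : ℤ} {x : AA R O b} :
    emb b f x ∈ Fw 𝒜 δ' w' (sg b ι '' S) n p ↔ x ∈ Fw 𝒜 δ w S n p :=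
  emb_mem hf hδ (fun m => by rw [lin_mp hw])

include hf hδ in
theorem ex_iff_Ft (hT : ∀ g, T' (sg b ι g) = emb b f (T g)) :
    Pool.Agent.Helper67.QB.Ex T'.d.toAddMonoidHom
      (fun n => (Ft k δ' (sg b ι '' S) n).toAddSubgroup) n ↔
    Pool.Agent.Helper67.QB.Ex T.d.toAddMonoidHom
      (fun n => (Ft k δ S n).toAddSubgroup) n :=
  ex_iff hf hδ (fun _ => rfl) hT

include hf hδ hw in
theorem ex_iff_Fw (hT : ∀ g, T' (sg b ι g) = emb b f (T g)) {p : ℤ} :
    Pool.Agent.Helper67.QB.Ex T'.d.toAddMonoidHom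
      (fun n => (Fw 𝒜 δ' w' (sg b ι '' S) n p).toAddSubgroup) n ↔
    Pool.Agent.Helper67.QB.Ex T.d.toAddMonoidHom
      (fun n => (Fw 𝒜 δ w S n p).toAddSubgroup) n :=
  ex_iff hf hδ (fun m => by rw [lin_mp hw]) hT

include hf hδ hw in
/-- The values of the differential. -/
theorem val_mem_Fw (hT : ∀ g, T' (sg b ι g) = emb b f (T g)) (hG : Gr 𝒜 δ w T)
    (g : O ⊕ Fin b) :
    T' (sg b ι g) ∈ Fw 𝒜 δ' w' Set.univ (δ' (sg b ι g) - 1) (w' (sg b ι g)) := by
  rw [hT, hδ, hw]
  have h1 := (emb_mem_Fw (𝒜 := 𝒜) (S := Set.univ) hf hδ hw).2 (hG.val g)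
  exact Pc_mono (Set.subset_univ _) (fun _ _ _ => le_rfl) h1

include hf in
/-- `d d = 0` on the values. -/
theorem sq_val (hT : ∀ g, T' (sg b ι g) = emb b f (T g)) (hsq : ∀ g, T.d (T g) = 0)
    (g : O ⊕ Fin b) : T'.d (T' (sg b ι g)) = 0 := by
  rw [hT, emb_d hf hT, hsq, map_zero]

end Fam

end Pool.Agent.Helper49.QBT
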